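import Pool.Agent.Results.MP_696deb_nt.JointProportionX15
import Pool.Agent.Y687.MQ.Abs

/-!
# Central order zero over multiquadratic fields for a positive proportion of all the quadratic twists in
# two residue classes of the non-CM curve `X_0(15)`

`E_M : y² = x³ - 12987 M² x - 263466 M³` is the quadratic twist by `M` of `X_0(15)`, an elliptic curve without
complex multiplication, and `D` runs over ALL the squarefree numbers `D ≡ 1` or `49` modulo `60`, with no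
condition on the prime factors: a set of positive density `5 / (16 π²)`. Let `K = ℚ(√d_1, …, √d_n)` be a field
of degree `2ⁿ` where `M > 0` and the `d_i > 0` are in this class up to squares. Let `π` be the automorphic
representation of `GL₂(𝔸_K)` of `E_M` over `K`; the twist of `π` by the quadratic character of `K(√D)/K` is that
of `E_{MD}` over `K`.
* The pair `(M D, d)` is good if for all the `2ⁿ` twists `E_{MD ∏_{i ∈ T} d_i}` the group of the rational points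
  is finite and `Ш(ℚ)` has no element of order two. This holds for exactly the proportion `c ^ 2ⁿ`,
  `c = ∏_{i ≥ 1} (1 - 2^{-i}) = 0.2887...`, of the `D` of the class.
* For these `D` the L-function of the twist of `π` by `χ_D` is entire and not zero at the centre, and
  `E_{MD}(K)` is finite.
* So the central order of `π ⊗ χ_D` is zero for at least `(5 c ^ 2ⁿ / (16 π²) - ε) X` of the `D ≤ X`.

The joint law is in `Pool/Agent/H735X` (see `MP_696deb_nt/JointProportionX15`), the single curve is the project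
X15 of helper757 (`MP_696deb_nt/TwoConverseX15`), the passage to the fields is from the starting file
`Pool/Agent/Y687/MQ/Abs`.
-/

set_option autoImplicit false

open NumberField IsDedekindDomain Filter Topology

namespace Pool.Agent.Results.MP_50bb2e_nt.MultiquadraticX15

open Pool.Agent.TH841.SH.D (Sha)

/-- the class: all the squarefree numbers `≡ 1` or `49` modulo `60` -/
def Cls (D : ℕ) : Prop := Squarefree D ∧ (D % 60 = 1 ∨ D % 60 = 49)

/-- `z` is `D` up to nonzero squares -/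
def UpTo (z : ℤ) (D : ℕ) : Prop := ∃ k : ℤ, k ≠ 0 ∧ z = D * k ^ 2

/-- `z` is in the class up to squares -/
def InCls (z : ℤ) : Prop := ∃ D : ℕ, Cls D ∧ UpTo z D

/-- no product of some of the `d_i` is a square: `ℚ(√d_1, …, √d_n)` has degree `2 ^ n` -/
def Ind {n : ℕ} (d : Fin n → ℤ) : Prop := ∀ T : Finset (Fin n), T.Nonempty → ¬ IsSquare (∏ i ∈ T, d i)

/-- the curve `E_D` over `ℚ` -/
def E (D : ℤ) : WeierstrassCurve ℚ :=
  { a₁ := 0, a₂ := 0, a₃ := 0, a₄ := ((-12987 * D ^ 2 : ℤ) : ℚ), a₆ := ((-263466 * D ^ 3 : ℤ) : ℚ) }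

/-- `E_D(ℚ)` is finite and `Ш(E_D/ℚ)` has no element of order two -/
def RankZeroShaTwo (D : ℤ) : Prop :=
  Finite (E D).toAffine.Point ∧ ∀ x : Sha (E D), 2 • x = 0 → x = 0

/-- the good pairs `(M, d)`: each of the numbers `M ∏_{i ∈ T} d_i` is, up to squares, a number `D ≠ 1` of the
class with `E_D(ℚ)` finite and `Ш(E_D/ℚ)[2] = 0` -/
def GoodPair {n : ℕ} (M : ℤ) (d : Fin n → ℤ) : Prop :=
  ∀ T : Finset (Fin n), ∃ D : ℕ, D ≠ 1 ∧ Cls D ∧ RankZeroShaTwo D ∧ UpTo (M * ∏ i ∈ T, d i) D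

/-- `K = ℚ(√d_1, …, √d_n)` -/
def IsMultiquadratic {n : ℕ} (d : Fin n → ℤ) (K : Type) [Field K] [NumberField K] : Prop :=
  ∃ x : Fin n → K, (∀ i, x i ^ 2 = (d i : K)) ∧ IntermediateField.adjoin ℚ (Set.range x) = ⊤

/-- the group `E_M(K)` -/
abbrev EK (K : Type) [Field K] (M : ℤ) : Type :=
  WeierstrassCurve.Affine.Point (WeierstrassCurve.toAffine
    ({ a₁ := 0, a₂ := 0, a₃ := 0, a₄ := ((-12987 * M ^ 2 : ℤ) : K),
       a₆ := ((-263466 * M ^ 3 : ℤ) : K) } : WeierstrassCurve K))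

/-- the number `q_v` of elements of the residue field of a finite place `v` of `K` -/
noncomputable def qv (K : Type) [Field K] (v : HeightOneSpectrum (𝓞 K)) : ℕ :=
  Nat.card (𝓞 K ⧸ v.asIdeal)

/-- `a_v = q_v + 1 - #E_M(k_v)`, that is `q_v` minus the number of affine points -/
noncomputable def av (K : Type) [Field K] (M : ℤ) (v : HeightOneSpectrum (𝓞 K)) : ℤ :=
  (qv K v : ℤ) - Nat.card {z : (𝓞 K ⧸ v.asIdeal) × (𝓞 K ⧸ v.asIdeal) //
    z.2 ^ 2 = z.1 ^ 3 + ((-12987 * M ^ 2 : ℤ) : 𝓞 K ⧸ v.asIdeal) * z.1 +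
      ((-263466 * M ^ 3 : ℤ) : 𝓞 K ⧸ v.asIdeal)}

open Classical in
/-- `F` is entire and is, for `Re s > 3/2`, the `L`-function of `E_M` over `K` without the Euler
factors at the places `v ∣ 30 M m` -/
def IsL (K : Type) [Field K] (M m : ℤ) (F : ℂ → ℂ) : Prop :=
  Differentiable ℂ F ∧ ∀ s : ℂ, (3 : ℝ) / 2 < s.re →
    HasProd (fun v : HeightOneSpectrum (𝓞 K) =>
      if ((30 * M * m : ℤ) : 𝓞 K) ∈ v.asIdeal then 1 else
        (1 - (av K M v : ℂ) * (qv K v : ℂ) ^ (-s) + (qv K v : ℂ) ^ (1 - 2 * s))⁻¹) (F s)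

/-- the `L`-function of `E_M` over `K` is entire and not zero at the centre `s = 1` -/
def OrderZero (K : Type) [Field K] (M m : ℤ) : Prop :=
  (∃ F : ℂ → ℂ, IsL K M m F) ∧ ∀ F : ℂ → ℂ, IsL K M m F → F 1 ≠ 0

/-- the proportion `(1 - 1/2) (1 - 1/4) (1 - 1/8) ⋯` -/
noncomputable def c : ℝ := ∏' i : ℕ, (1 - (1 / 2 : ℝ) ^ (i + 1))

open Classical in
/-- the number of the `D ≤ X` of the class with the property `Q` -/
noncomputable def num (Q : ℕ → Prop) (X : ℕ) : ℕ :=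
  ((Finset.Icc 1 X).filter fun D => Cls D ∧ Q D).card

section proof

open Pool.Agent.Y687.MQ (ZB ZB_scale mq_zero)
open Pool.Agent.Y19.QT (Indep IsLFun IsLFunK)
open Pool.Agent.Results.MP_696deb_nt

/-! ### the fields -/

theorem finite_set {a b : ℤ} (hab : 4 * a ^ 3 + 27 * b ^ 2 ≠ 0)
    (h : Finite (WeierstrassCurve.Affine.Point (WeierstrassCurve.toAffine
      ({ a₁ := 0, a₂ := 0, a₃ := 0, a₄ := (a : ℚ), a₆ := (b : ℚ) } : WeierstrassCurve ℚ)))) :
    {q : ℚ × ℚ | q.2 ^ 2 = q.1 ^ 3 + (a : ℚ) * q.1 + (b : ℚ)}.Finite := by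
  set W : WeierstrassCurve ℚ :=
    { a₁ := 0, a₂ := 0, a₃ := 0, a₄ := (a : ℚ), a₆ := (b : ℚ) } with hW
  have hΔ : W.Δ ≠ 0 := by
    have h1 : W.Δ = -16 * ((4 * a ^ 3 + 27 * b ^ 2 : ℤ) : ℚ) := by
      rw [hW]
      simp only [WeierstrassCurve.Δ, WeierstrassCurve.b₂, WeierstrassCurve.b₄, WeierstrassCurve.b₆,
        WeierstrassCurve.b₈]
      push_cast
      ring
    rw [h1]
    exact mul_ne_zero (by norm_num) (by exact_mod_cast hab)
  have key : ∀ q : {q : ℚ × ℚ | q.2 ^ 2 = q.1 ^ 3 + (a : ℚ) * q.1 + (b : ℚ)},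
      W.toAffine.Nonsingular q.1.1 q.1.2 := by
    rintro ⟨⟨x, y⟩, hq⟩
    rw [← WeierstrassCurve.Affine.equation_iff_nonsingular_of_Δ_ne_zero hΔ,
      WeierstrassCurve.Affine.equation_iff]
    have h1 : y ^ 2 = x ^ 3 + (a : ℚ) * x + (b : ℚ) := hq
    show y ^ 2 + 0 * x * y + 0 * y = x ^ 3 + 0 * x ^ 2 + (a : ℚ) * x + (b : ℚ)
    linarith
  have hf : Finite W.toAffine.Point := h
  have h2 : Finite {q : ℚ × ℚ | q.2 ^ 2 = q.1 ^ 3 + (a : ℚ) * q.1 + (b : ℚ)} := by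
    refine Finite.of_injective
      (fun q => WeierstrassCurve.Affine.Point.some q.1.1 q.1.2 (key q)) ?_
    intro p q hpq
    simp only [WeierstrassCurve.Affine.Point.some.injEq] at hpq
    exact Subtype.ext (Prod.ext hpq.1 hpq.2)
  exact Set.toFinite _

theorem zb_of {D : ℕ} (h : Cls D) (h1 : D ≠ 1) (hR : RankZeroShaTwo D) :
    ZB (-12987 * (D : ℤ) ^ 2) (-263466 * (D : ℤ) ^ 3) := by
  obtain ⟨h0, F, hF, hFp, hF1, hr⟩ := JointProportionX15.bsd h h1 hR
  refine ⟨⟨F, ⟨hF, hFp⟩, ?_⟩, finite_set h0 hR.1⟩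
  rw [hF1, hr, Nat.cast_zero]

theorem zb_up {z : ℤ} (h : ∃ D : ℕ, D ≠ 1 ∧ Cls D ∧ RankZeroShaTwo D ∧ UpTo z D) :
    ZB (-12987 * z ^ 2) (-263466 * z ^ 3) := by
  obtain ⟨D, h1, h2, h3, k, hk, rfl⟩ := h
  exact ZB_scale (by norm_num) (by exact_mod_cast h2.1.ne_zero) hk (zb_of h2 h1 h3)

theorem isLFunK_unique {K : Type} [Field K] {a b D : ℤ} {F G : ℂ → ℂ} (hF : IsLFunK K a b D F)
    (hG : IsLFunK K a b D G) : F = G := by
  have hF' : AnalyticOnNhd ℂ F Set.univ := fun z _ => hF.1.analyticAt z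
  have hG' : AnalyticOnNhd ℂ G Set.univ := fun z _ => hG.1.analyticAt z
  refine hF'.eq_of_eventuallyEq hG' (z₀ := 2) ?_
  have hmem : {s : ℂ | (3 : ℝ) / 2 < s.re} ∈ nhds (2 : ℂ) :=
    (isOpen_lt continuous_const Complex.continuous_re).mem_nhds (by
      show (3 : ℝ) / 2 < (2 : ℂ).re
      norm_num)
  filter_upwards [hmem] with s hs
  exact (hF.2 s hs).unique (hG.2 s hs)

/-- the places of bad reduction -/
theorem bad_iff (K : Type) [Field K] [NumberField K] (M m : ℤ) (v : HeightOneSpectrum (𝓞 K)) :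
    (((30 * M * m : ℤ) : 𝓞 K) ∈ v.asIdeal ↔
      ((2 * (4 * (-12987 * M ^ 2) ^ 3 + 27 * (-263466 * M ^ 3) ^ 2) * m : ℤ) : 𝓞 K) ∈
        v.asIdeal) := by
  have := v.isPrime
  constructor
  · intro h1
    have e1 : ((2 * (4 * (-12987 * M ^ 2) ^ 3 + 27 * (-263466 * M ^ 3) ^ 2) * m : ℤ) : 𝓞 K) =
        ((-(2 ^ 8 * 3 ^ 15 * 5 ^ 3) * M ^ 5 : ℤ) : 𝓞 K) * ((30 * M * m : ℤ) : 𝓞 K) := by
      rw [← Int.cast_mul]
      congr 1
      ring
    rw [e1]
    exact Ideal.mul_mem_left _ _ h1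
  · intro h1
    refine Ideal.IsPrime.mem_of_pow_mem this 16 ?_
    have e1 : ((30 * M * m : ℤ) : 𝓞 K) ^ 16 = ((-(2 ^ 7 * 5 ^ 12) * M ^ 10 * m ^ 15 : ℤ) : 𝓞 K) *
        ((2 * (4 * (-12987 * M ^ 2) ^ 3 + 27 * (-263466 * M ^ 3) ^ 2) * m : ℤ) : 𝓞 K) := by
      rw [← Int.cast_mul, ← Int.cast_pow]
      congr 1
      ring
    rw [e1]
    exact Ideal.mul_mem_left _ _ h1

open Classical in
theorem isL_iff (K : Type) [Field K] [NumberField K] (M m : ℤ) (G : ℂ → ℂ) :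
    IsL K M m G ↔ IsLFunK K (-12987 * M ^ 2) (-263466 * M ^ 3) m G := by
  unfold IsL IsLFunK
  refine and_congr_right fun _ => forall_congr' fun s => forall_congr' fun _ => ?_
  have h1 : (fun v : HeightOneSpectrum (𝓞 K) =>
      if ((30 * M * m : ℤ) : 𝓞 K) ∈ v.asIdeal then (1 : ℂ) else
        (1 - (av K M v : ℂ) * (qv K v : ℂ) ^ (-s) + (qv K v : ℂ) ^ (1 - 2 * s))⁻¹) =
      fun v : HeightOneSpectrum (𝓞 K) =>
      if ((2 * (4 * (-12987 * M ^ 2) ^ 3 + 27 * (-263466 * M ^ 3) ^ 2) * m : ℤ) : 𝓞 K) ∈ v.asIdeal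
        then (1 : ℂ) else
        (1 - (av K M v : ℂ) * (qv K v : ℂ) ^ (-s) + (qv K v : ℂ) ^ (1 - 2 * s))⁻¹ := by
    funext v
    by_cases hv : ((30 * M * m : ℤ) : 𝓞 K) ∈ v.asIdeal
    · rw [if_pos hv, if_pos ((bad_iff K M m v).1 hv)]
    · rw [if_neg hv, if_neg fun h => hv ((bad_iff K M m v).2 h)]
  rw [h1]
  rfl

theorem field_zero {n : ℕ} {d : Fin n → ℤ} {M : ℤ} (hd : Ind d) (h : GoodPair M d)
    (K : Type) [Field K] [NumberField K] (hK : IsMultiquadratic d K) :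
    Module.finrank ℚ K = 2 ^ n ∧ OrderZero K M (∏ i, d i) ∧ Finite (EK K M) := by
  obtain ⟨x, hx, hK⟩ := hK
  have hM : M ≠ 0 := by
    obtain ⟨D, -, h2, -, k, hk, he⟩ := h ∅
    rw [Finset.prod_empty, mul_one] at he
    rw [he]
    exact mul_ne_zero (by exact_mod_cast h2.1.ne_zero) (pow_ne_zero 2 hk)
  have hind : Indep d := hd
  refine ⟨?_, ?_⟩
  · have := Pool.Agent.Y73.QMQ1.gal_of hx hK
    rw [← IsGalois.card_aut_eq_finrank]
    exact Pool.Agent.Y73.QMQ1.card_gal hind hx hK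
  have h1 := mq_zero hind (a := -12987 * M ^ 2) (b := -263466 * M ^ 3) (by
      have e : 4 * (-12987 * M ^ 2) ^ 3 + 27 * (-263466 * M ^ 3) ^ 2 =
          (4 * (-12987) ^ 3 + 27 * 263466 ^ 2) * M ^ 6 := by ring
      rw [e]
      exact mul_ne_zero (by norm_num) (pow_ne_zero _ hM)) (fun T => by
      have h2 := zb_up (h T)
      have e1 : -12987 * (M * ∏ i ∈ T, d i) ^ 2 = -12987 * M ^ 2 * (∏ i ∈ T, d i) ^ 2 := by ring
      have e2 : -263466 * (M * ∏ i ∈ T, d i) ^ 3 = -263466 * M ^ 3 * (∏ i ∈ T, d i) ^ 3 := by ring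
      rwa [e1, e2] at h2) K x hx hK
  obtain ⟨⟨F, hF, hF1⟩, hfin⟩ := h1
  refine ⟨⟨⟨F, (isL_iff K M _ F).2 hF⟩, fun G hG => ?_⟩, hfin⟩
  rw [isLFunK_unique ((isL_iff K M _ G).1 hG) hF]
  exact hF1

theorem num_le {Q R : ℕ → Prop} (h : ∀ D, Cls D → Q D → R D) (X : ℕ) : num Q X ≤ num R X := by
  classical
  unfold num
  refine Finset.card_le_card fun D hD => ?_
  obtain ⟨k1, k2, k3⟩ := Finset.mem_filter.1 hD
  exact Finset.mem_filter.2 ⟨k1, k2, h D k2 k3⟩

/-! ### the numbers -/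

open JointProportionX15 (tw tw_cls tw_mul tw_one)

theorem sq_of_mul_sq {t a b : ℤ} (ha : a ≠ 0) (h : t * a ^ 2 = b ^ 2) : IsSquare t := by
  have h1 : a ^ 2 ∣ b ^ 2 := ⟨t, by rw [← h]; ring⟩
  obtain ⟨e, rfl⟩ := (Int.pow_dvd_pow_iff (by norm_num : (2 : ℕ) ≠ 0)).1 h1
  refine ⟨e, ?_⟩
  have h2 : a ^ 2 ≠ 0 := pow_ne_zero 2 ha
  apply mul_right_cancel₀ h2
  rw [h]
  ring

theorem upTo_mul {a b : ℤ} {D D' : ℕ} (ha : UpTo a D) (hb : UpTo b D') : UpTo (a * b) (tw D D') ∨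
    D = 0 := by
  by_cases hD : D = 0
  · exact Or.inr hD
  left
  obtain ⟨k, hk, rfl⟩ := ha
  obtain ⟨l, hl, rfl⟩ := hb
  have h0 : (Nat.gcd D D' : ℤ) ≠ 0 := by
    have : Nat.gcd D D' ≠ 0 := fun h => hD (Nat.eq_zero_of_gcd_eq_zero_left h)
    exact_mod_cast this
  refine ⟨Nat.gcd D D' * k * l, mul_ne_zero (mul_ne_zero h0 hk) hl, ?_⟩
  have h1 : (D : ℤ) * D' = (tw D D' : ℤ) * (Nat.gcd D D' : ℤ) ^ 2 := by
    exact_mod_cast (tw_mul (M := D) (D := D'))
  calc (D : ℤ) * k ^ 2 * (D' * l ^ 2) = (D * D') * (k * l) ^ 2 := by ring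
    _ = _ := by rw [h1]; ring

theorem inCls_mul {a b : ℤ} (ha : InCls a) (hb : InCls b) : InCls (a * b) := by
  obtain ⟨D, hD, ha⟩ := ha
  obtain ⟨D', hD', hb⟩ := hb
  rcases upTo_mul ha hb with h | h
  · exact ⟨tw D D', tw_cls hD hD', h⟩
  · exact absurd h hD.1.ne_zero

theorem cls_one : Cls 1 := ⟨squarefree_one, Or.inl (by norm_num)⟩

theorem inCls_prod {n : ℕ} {d : Fin n → ℤ} (hd : ∀ i, InCls (d i)) (T : Finset (Fin n)) :
    InCls (∏ i ∈ T, d i) := by
  classical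
  induction T using Finset.induction_on with
  | empty => exact ⟨1, cls_one, 1, one_ne_zero, by simp⟩
  | insert i T hi ih =>
    rw [Finset.prod_insert hi]
    exact inCls_mul (hd i) ih

theorem upTo_unique {z : ℤ} {D D' : ℕ} (hD : Cls D) (hD' : Cls D') (h : UpTo z D)
    (h' : UpTo z D') : D = D' := by
  obtain ⟨k, hk, h1⟩ := h
  obtain ⟨l, hl, h2⟩ := h'
  have h3 : (D : ℤ) * D' = (tw D' D : ℤ) * (Nat.gcd D' D : ℤ) ^ 2 := by
    have := tw_mul (M := D') (D := D)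
    rw [mul_comm]
    exact_mod_cast this
  have h4 : (tw D' D : ℤ) * ((Nat.gcd D' D : ℤ) * k) ^ 2 = (D' * l) ^ 2 := by
    calc (tw D' D : ℤ) * ((Nat.gcd D' D : ℤ) * k) ^ 2 =
        ((tw D' D : ℤ) * (Nat.gcd D' D : ℤ) ^ 2) * k ^ 2 := by ring
      _ = D' * (D * k ^ 2) := by rw [← h3]; ring
      _ = D' * (D' * l ^ 2) := by rw [← h1, h2]
      _ = _ := by ring
  have h0 : (Nat.gcd D' D : ℤ) ≠ 0 := by
    have : Nat.gcd D' D ≠ 0 := fun h => hD'.1.ne_zero (Nat.eq_zero_of_gcd_eq_zero_left h)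
    exact_mod_cast this
  obtain ⟨e, he⟩ := sq_of_mul_sq (mul_ne_zero h0 hk) h4
  have h5 : tw D' D = e.natAbs * e.natAbs := by
    have := congrArg Int.natAbs he
    rwa [Int.natAbs_natCast, Int.natAbs_mul] at this
  have h6 : IsUnit e.natAbs := (tw_cls hD' hD).1 e.natAbs ⟨1, by rw [h5, mul_one]⟩
  rw [Nat.isUnit_iff] at h6
  rw [h6, mul_one] at h5
  exact tw_one hD'.1 hD.1 h5

theorem prod_sym {n : ℕ} (d : Fin n → ℤ) (T T' : Finset (Fin n)) :
    (∏ i ∈ symmDiff T T', d i) * (∏ i ∈ T ∩ T', d i) ^ 2 = (∏ i ∈ T, d i) * ∏ i ∈ T', d i := by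
  classical
  have h1 : symmDiff T T' = (T \ T') ∪ (T' \ T) := rfl
  have hd : Disjoint (T \ T') (T' \ T) := by
    rw [Finset.disjoint_left]
    intro x hx hx'
    exact (Finset.mem_sdiff.1 hx').2 (Finset.mem_sdiff.1 hx).1
  rw [h1, Finset.prod_union hd]
  have h2 : (∏ i ∈ T \ T', d i) * ∏ i ∈ T ∩ T', d i = ∏ i ∈ T, d i := by
    rw [← Finset.prod_union (Finset.disjoint_sdiff_inter T T'), Finset.sdiff_union_inter]
  have h3 : (∏ i ∈ T' \ T, d i) * ∏ i ∈ T ∩ T', d i = ∏ i ∈ T', d i := by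
    rw [Finset.inter_comm, ← Finset.prod_union (Finset.disjoint_sdiff_inter T' T),
      Finset.sdiff_union_inter]
  rw [← h2, ← h3]
  ring

/-- the exact proportion -/
theorem prop_good {n : ℕ} {M : ℤ} {d : Fin n → ℤ} (hd : Ind d) (hM : InCls M)
    (hc : ∀ i, InCls (d i)) :
    Tendsto (fun X : ℕ => (num (fun D => GoodPair (M * D) d) X : ℝ) / (num (fun _ => True) X : ℝ))
      atTop (𝓝 (c ^ 2 ^ n)) := by
  classical
  have hR : ∀ T : Finset (Fin n), ∃ D : ℕ, Cls D ∧ UpTo (M * ∏ i ∈ T, d i) D := fun T =>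
    inCls_mul hM (inCls_prod hc T)
  choose R hR1 hR2 using hR
  have hne : ∀ i, d i ≠ 0 := by
    intro i
    obtain ⟨D, hD, k, hk, he⟩ := hc i
    rw [he]
    exact mul_ne_zero (by exact_mod_cast hD.1.ne_zero) (pow_ne_zero 2 hk)
  have hM0 : M ≠ 0 := by
    obtain ⟨D, hD, k, hk, he⟩ := hM
    rw [he]
    exact mul_ne_zero (by exact_mod_cast hD.1.ne_zero) (pow_ne_zero 2 hk)
  have hinj : Function.Injective R := by
    intro T T' h
    by_contra hTT
    have hne' : (symmDiff T T').Nonempty := by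
      rw [Finset.nonempty_iff_ne_empty]
      intro h0
      have h1 : symmDiff T T' = ⊥ := h0
      exact hTT (symmDiff_eq_bot.1 h1)
    refine hd _ hne' ?_
    obtain ⟨k, hk, h1⟩ := hR2 T
    obtain ⟨l, hl, h2⟩ := hR2 T'
    rw [← h] at h2
    refine sq_of_mul_sq (a := M * ∏ i ∈ T ∩ T', d i) (b := (R T : ℤ) * k * l)
      (mul_ne_zero hM0 (Finset.prod_ne_zero_iff.2 fun i _ => hne i)) ?_
    calc (∏ i ∈ symmDiff T T', d i) * (M * ∏ i ∈ T ∩ T', d i) ^ 2 =
          M ^ 2 * ((∏ i ∈ symmDiff T T', d i) * (∏ i ∈ T ∩ T', d i) ^ 2) := by ring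
      _ = (M * ∏ i ∈ T, d i) * (M * ∏ i ∈ T', d i) := by rw [prod_sym]; ring
      _ = _ := by rw [h1, h2]; ring
  set S : Finset ℕ := Finset.univ.image R with hS
  have hScard : S.card = 2 ^ n := by
    rw [hS, Finset.card_image_of_injective _ hinj, Finset.card_univ, Fintype.card_finset,
      Fintype.card_fin]
  have hSc : ∀ D ∈ S, Cls D := by
    intro D hD
    obtain ⟨T, -, rfl⟩ := Finset.mem_image.1 hD
    exact hR1 T
  have h1 := JointProportionX15.joint S S hSc (Finset.Subset.refl S)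
  rw [Finset.sdiff_self, Finset.card_empty, pow_zero, mul_one, hScard] at h1
  have h2 : Tendsto (fun X : ℕ => (S.card : ℝ) / (num (fun _ => True) X : ℝ)) atTop (𝓝 0) :=
    JointProportionX15.count_tendsto.const_div_atTop _
  have h3 : Tendsto (fun X : ℕ =>
      (num (fun D => GoodPair (M * D) d) X : ℝ) / (num (fun _ => True) X : ℝ) -
      (num (fun D => ∀ M' ∈ S, (RankZeroShaTwo (tw M' D) ↔ M' ∈ S)) X : ℝ) /
        (num (fun _ => True) X : ℝ)) atTop (𝓝 0) := by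
    refine squeeze_zero_norm (fun X => ?_) h2
    rw [Real.norm_eq_abs, ← sub_div, abs_div, Nat.abs_cast]
    refine div_le_div_of_nonneg_right ?_ (Nat.cast_nonneg _)
    refine JointProportionX15.change S (fun D hD hDS => ?_) X
    have key : ∀ T : Finset (Fin n), ((∃ D' : ℕ, D' ≠ 1 ∧ Cls D' ∧ RankZeroShaTwo D' ∧
        UpTo (M * D * ∏ i ∈ T, d i) D') ↔ RankZeroShaTwo (tw (R T) D)) := by
      intro T
      have h5 : UpTo (M * D * ∏ i ∈ T, d i) (tw (R T) D) := by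
        have h6 : UpTo (D : ℤ) D := ⟨1, one_ne_zero, by ring⟩
        have h7 := (upTo_mul (hR2 T) h6).resolve_right (hR1 T).1.ne_zero
        have e : M * D * ∏ i ∈ T, d i = M * (∏ i ∈ T, d i) * D := by ring
        rwa [e]
      have h8 : tw (R T) D ≠ 1 := fun h => hDS
        ((tw_one (hR1 T).1 hD.1 h).symm ▸ Finset.mem_image_of_mem R (Finset.mem_univ T))
      constructor
      · rintro ⟨D', -, k2, k3, k4⟩
        rwa [upTo_unique (tw_cls (hR1 T) hD) k2 h5 k4]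
      · intro h9
        exact ⟨_, h8, tw_cls (hR1 T) hD, h9, h5⟩
    constructor
    · intro h4 M' hM'
      obtain ⟨T, -, rfl⟩ := Finset.mem_image.1 hM'
      exact iff_of_true ((key T).1 (h4 T)) hM'
    · intro h4 T
      have h5 := Finset.mem_image_of_mem R (Finset.mem_univ T)
      exact (key T).2 ((h4 _ h5).2 h5)
  have h4 := h3.add h1
  rw [zero_add] at h4
  refine h4.congr fun X => ?_
  have e : (num (fun D => ∀ M' ∈ S, (RankZeroShaTwo (tw M' D) ↔ M' ∈ S)) X : ℝ) /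
      (num (fun _ => True) X : ℝ) = (JointProportionX15.count (fun D => ∀ M' ∈ S,
      (JointProportionX15.RankZeroShaTwo (tw M' D) ↔ M' ∈ S)) X : ℝ) /
      (JointProportionX15.count (fun _ => True) X : ℝ) := rfl
  rw [e]
  ring

end proof

/-- **Central order zero for the twists of `X_0(15)` over multiquadratic fields.** -/
theorem result :
    (∀ (n : ℕ) (M : ℤ) (d : Fin n → ℤ), Ind d → GoodPair M d →
      ∀ (K : Type) [Field K] [NumberField K], IsMultiquadratic d K →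
        Module.finrank ℚ K = 2 ^ n ∧ OrderZero K M (∏ i, d i) ∧ Finite (EK K M)) ∧
    (∀ (n : ℕ) (M : ℤ) (d : Fin n → ℤ), Ind d → InCls M → (∀ i, InCls (d i)) →
      Tendsto (fun X : ℕ => (num (fun D => GoodPair (M * D) d) X : ℝ) / (num (fun _ => True) X : ℝ))
        atTop (𝓝 (c ^ 2 ^ n)) ∧
      ∀ (K : Type) [Field K] [NumberField K], IsMultiquadratic d K → ∀ ε : ℝ, 0 < ε →
        (∀ᶠ X : ℕ in atTop, (c ^ 2 ^ n - ε) * (num (fun _ => True) X : ℝ) ≤
          (num (fun D => OrderZero K (M * D) (∏ i, d i) ∧ Finite (EK K (M * D))) X : ℝ)) ∧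
        ∀ᶠ X : ℕ in atTop, (5 / (16 * Real.pi ^ 2) * c ^ 2 ^ n - ε) * X ≤
          (num (fun D => OrderZero K (M * D) (∏ i, d i) ∧ Finite (EK K (M * D))) X : ℝ)) ∧
    Tendsto (fun X : ℕ => (num (fun _ => True) X : ℝ) / X) atTop (𝓝 (5 / (16 * Real.pi ^ 2))) ∧
    0.2887 < c ∧ c < 0.2888 := by
  obtain ⟨-, -, g1, g2, g3⟩ := Pool.Agent.Results.MP_696deb_nt.JointProportionX15.result
  have gd : Tendsto (fun X : ℕ => (num (fun _ => True) X : ℝ) / X) atTop
    (𝓝 (5 / (16 * Real.pi ^ 2))) := g1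
  refine ⟨fun n M d hd h K _ _ hK => field_zero hd h K hK, fun n M d hd hM hc => ?_, gd, g2, g3⟩
  have h1 := prop_good hd hM hc
  refine ⟨h1, fun K _ _ hK ε hε => ?_⟩
  have hle : ∀ X, num (fun D => GoodPair (M * D) d) X ≤
      num (fun D => OrderZero K (M * D) (∏ i, d i) ∧ Finite (EK K (M * D))) X := by
    intro X
    exact num_le (fun D _ h => (field_zero hd h K hK).2) X
  have hpos : Tendsto (fun X : ℕ => (num (fun _ => True) X : ℝ)) atTop atTop :=
    Pool.Agent.Results.MP_696deb_nt.JointProportionX15.count_tendsto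
  constructor
  · filter_upwards [h1.eventually (lt_mem_nhds (show c ^ 2 ^ n - ε < c ^ 2 ^ n by linarith)),
      hpos.eventually_gt_atTop 0] with X hX h0
    exact ((lt_div_iff₀ h0).1 hX).le.trans (by exact_mod_cast hle X)
  · have h2 := gd.mul h1
    filter_upwards [h2.eventually (lt_mem_nhds (show 5 / (16 * Real.pi ^ 2) * c ^ 2 ^ n - ε <
      5 / (16 * Real.pi ^ 2) * c ^ 2 ^ n by linarith)), hpos.eventually_gt_atTop 0,
      eventually_ge_atTop 1] with X hX h0 hX1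
    have hX0 : (0 : ℝ) < X := by exact_mod_cast hX1
    have e : (num (fun _ => True) X : ℝ) / X *
        ((num (fun D => GoodPair (M * D) d) X : ℝ) / (num (fun _ => True) X : ℝ)) =
        (num (fun D => GoodPair (M * D) d) X : ℝ) / X := by
      field_simp
    rw [e, lt_div_iff₀ hX0] at hX
    exact hX.le.trans (by exact_mod_cast hle X)

end Pool.Agent.Results.MP_50bb2e_nt.MultiquadraticX15
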